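import Mathlib.Algebra.Module.CharacterModule
import Mathlib.Topology.Instances.AddCircle.Defs
import Mathlib.Data.ZMod.Basic
import Mathlib.GroupTheory.Exponent
import Mathlib.GroupTheory.OrderOfElement
import Mathlib.SetTheory.Cardinal.Finite
import Mathlib.Tactic

set_option autoImplicit false

/-! Finite abelian groups: splitting off a cyclic group of maximal order, and the decomposition
`G ≃ U × A` with a surjection `U → A` and `card G ≤ (card A) ^ 2 * exponent G`. -/

namespace TH964.HP

open Finset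

theorem exists_iota (N : ℕ) (hN : 0 < N) : ∃ ι : ZMod N →+ AddCircle (1 : ℚ),
    Function.Injective ι ∧ ∀ x : AddCircle (1 : ℚ), N • x = 0 → ∃ z, ι z = x := by
  have : NeZero N := ⟨hN.ne'⟩
  let f0 : ℤ →+ AddCircle (1 : ℚ) := zmultiplesHom _ (((1 : ℚ) / (N : ℕ) : ℚ) : AddCircle (1 : ℚ))
  have : Fact ((0 : ℚ) < 1) := ⟨by norm_num⟩
  have hord : addOrderOf (((1 : ℚ) / (N : ℕ) : ℚ) : AddCircle (1 : ℚ)) = N :=
    AddCircle.addOrderOf_period_div hN
  have hf0 : f0 ((N : ℕ) : ℤ) = 0 := by
    simp only [f0, zmultiplesHom_apply, natCast_zsmul]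
    exact addOrderOf_dvd_iff_nsmul_eq_zero.1 (by rw [hord])
  refine ⟨ZMod.lift N ⟨f0, hf0⟩, ?_, ?_⟩
  · rw [ZMod.lift_injective]
    intro m hm
    have hm' : m • (((1 : ℚ) / (N : ℕ) : ℚ) : AddCircle (1 : ℚ)) = 0 := hm
    rw [← addOrderOf_dvd_iff_zsmul_eq_zero, hord] at hm'
    exact (ZMod.intCast_zmod_eq_zero_iff_dvd _ _).2 hm'
  · intro x hx
    obtain ⟨m, -, hm⟩ := (AddCircle.nsmul_eq_zero_iff (u := x) hN).1 hx
    refine ⟨((m : ℤ) : ZMod N), ?_⟩
    rw [ZMod.lift_coe]
    simp only [f0, zmultiplesHom_apply, natCast_zsmul]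
    rw [← hm, ← AddCircle.coe_nsmul]
    congr 1
    simp [div_eq_mul_inv]

theorem split_exponent (G : Type) [AddCommGroup G] [Finite G] :
    ∃ (K : Type) (_ : AddCommGroup K) (_ : Finite K),
      Nonempty (G ≃+ ZMod (AddMonoid.exponent G) × K) := by
  classical
  obtain ⟨g, hg⟩ := AddMonoid.exists_addOrderOf_eq_exponent (AddMonoid.ExponentExists.of_finite (G := G))
  obtain ⟨N, hN⟩ : ∃ N, N = AddMonoid.exponent G := ⟨_, rfl⟩
  rw [← hN] at hg ⊢
  have hpos : 0 < N := by
    rw [← hg]; exact addOrderOf_pos g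
  have hkill : ∀ x : G, N • x = 0 := fun x => by rw [hN]; exact AddMonoid.exponent_nsmul_eq_zero x
  let s : ZMod N →+ G := ZMod.lift N ⟨zmultiplesHom G g, by
    simp only [zmultiplesHom_apply, natCast_zsmul]; exact hkill g⟩
  have hs : Function.Injective s := by
    rw [ZMod.lift_injective]
    intro m hm
    have hm' : m • g = 0 := hm
    rw [← addOrderOf_dvd_iff_zsmul_eq_zero, hg] at hm'
    exact (ZMod.intCast_zmod_eq_zero_iff_dvd _ _).2 hm'
  obtain ⟨ι, hι, hιs⟩ := exists_iota N hpos
  obtain ⟨χ, hχ⟩ := CharacterModule.dual_surjective_of_injective (s.toIntLinearMap) hs ι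
  have hχ' : ∀ z, χ (s z) = ι z := fun z => DFunLike.congr_fun hχ z
  have hr : ∀ x : G, ∃ z, ι z = χ x := by
    intro x
    refine hιs _ ?_
    rw [← map_nsmul, hkill, map_zero]
  choose r hr using hr
  let rr : G →+ ZMod N := AddMonoidHom.mk' r (by
    intro x y
    apply hι
    rw [map_add, hr, hr, hr, map_add])
  have hrs : ∀ z, rr (s z) = z := by
    intro z
    apply hι
    show ι (r (s z)) = ι z
    rw [hr, hχ']
  refine ⟨rr.ker, inferInstance, inferInstance, ⟨?_⟩⟩
  refine AddEquiv.mk' ⟨fun x => (rr x, ⟨x - s (rr x), ?_⟩), fun z => s z.1 + z.2, ?_, ?_⟩ ?_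
  · rw [AddMonoidHom.mem_ker, map_sub, hrs, sub_self]
  · intro x; simp
  · rintro ⟨z, k, hk⟩
    rw [AddMonoidHom.mem_ker] at hk
    refine Prod.ext ?_ ?_
    · simp [hrs, hk]
    · refine Subtype.ext ?_
      simp [hrs, hk]
  · intro x y
    refine Prod.ext ?_ ?_
    · simp
    · refine Subtype.ext ?_
      simp
      abel

theorem decomp (G : Type) [AddCommGroup G] [Finite G] :
    ∃ (U A : Type) (_ : AddCommGroup U) (_ : AddCommGroup A) (_ : Finite U) (_ : Finite A)
      (ρ : U →+ A), Function.Surjective ρ ∧ Nonempty (G ≃+ U × A) ∧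
      Nat.card G ≤ Nat.card A ^ 2 * AddMonoid.exponent G := by
  obtain ⟨n, hn⟩ : ∃ n, n = Nat.card G := ⟨_, rfl⟩
  induction n using Nat.strong_induction_on generalizing G with
  | _ n ih =>
    subst hn
    by_cases h1 : Nat.card G = 1
    · refine ⟨G, PUnit, inferInstance, inferInstance, inferInstance, inferInstance, 0,
        fun x => ⟨0, rfl⟩, ⟨AddEquiv.prodUnique.symm⟩, ?_⟩
      rw [h1]
      have := AddMonoid.exponent_ne_zero_of_finite (G := G)
      have h2 : Nat.card PUnit = 1 := by simp
      rw [h2]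
      omega
    · obtain ⟨K, _, _, ⟨e⟩⟩ := split_exponent G
      obtain ⟨K', _, _, ⟨e'⟩⟩ := split_exponent K
      have hNpos : 0 < AddMonoid.exponent G :=
        Nat.pos_of_ne_zero AddMonoid.exponent_ne_zero_of_finite
      have hNpos' : 0 < AddMonoid.exponent K :=
        Nat.pos_of_ne_zero AddMonoid.exponent_ne_zero_of_finite
      have : NeZero (AddMonoid.exponent G) := ⟨hNpos.ne'⟩
      have : NeZero (AddMonoid.exponent K) := ⟨hNpos'.ne'⟩
      have hG : Nat.card G = AddMonoid.exponent G * Nat.card K := by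
        rw [Nat.card_congr e.toEquiv, Nat.card_prod, Nat.card_zmod]
      have hK : Nat.card K = AddMonoid.exponent K * Nat.card K' := by
        rw [Nat.card_congr e'.toEquiv, Nat.card_prod, Nat.card_zmod]
      have hKpos : 0 < Nat.card K := Nat.card_pos
      have hKpos' : 0 < Nat.card K' := Nat.card_pos
      have hN2 : 2 ≤ AddMonoid.exponent G := by
        by_contra hlt
        have : AddMonoid.exponent G = 1 := by omega
        rw [AddMonoid.exp_eq_one_iff] at this
        exact h1 (Nat.card_eq_one_iff_unique.2 ⟨this, ⟨0⟩⟩)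
      have hlt : Nat.card K' < Nat.card G := by
        have a1 : Nat.card K' ≤ Nat.card K := by rw [hK]; exact Nat.le_mul_of_pos_left _ hNpos'
        have a2 : Nat.card K < Nat.card G := by rw [hG]; nlinarith
        omega
      obtain ⟨U, A, _, _, _, _, ρ, hρ, ⟨f⟩, hb⟩ := ih _ hlt K' rfl
      have hdvd : AddMonoid.exponent K ∣ AddMonoid.exponent G := by
        refine AddMonoid.exponent_dvd_of_addMonoidHom
          (e.symm.toAddMonoidHom.comp (AddMonoidHom.inr (ZMod (AddMonoid.exponent G)) K)) ?_
        intro x y hxy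
        have := e.symm.injective hxy
        simpa using this
      have hdvd' : AddMonoid.exponent K' ≤ AddMonoid.exponent K := by
        refine Nat.le_of_dvd hNpos' (AddMonoid.exponent_dvd_of_addMonoidHom
          (e'.symm.toAddMonoidHom.comp (AddMonoidHom.inr (ZMod (AddMonoid.exponent K)) K')) ?_)
        intro x y hxy
        have := e'.symm.injective hxy
        simpa using this
      refine ⟨ZMod (AddMonoid.exponent G) × U, ZMod (AddMonoid.exponent K) × A, inferInstance,
        inferInstance, inferInstance, inferInstance,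
        AddMonoidHom.prodMap (ZMod.castHom hdvd (ZMod (AddMonoid.exponent K))).toAddMonoidHom ρ,
        ?_, ⟨?_⟩, ?_⟩
      · rintro ⟨x, y⟩
        obtain ⟨u, hu⟩ := ZMod.castHom_surjective hdvd x
        obtain ⟨v, hv⟩ := hρ y
        exact ⟨(u, v), Prod.ext hu hv⟩
      · refine e.trans ((AddEquiv.prodCongr (AddEquiv.refl _)
          (e'.trans (AddEquiv.prodCongr (AddEquiv.refl _) f))).trans ?_)
        exact { toFun := fun z => ((z.1, z.2.2.1), (z.2.1, z.2.2.2))
                invFun := fun z => (z.1.1, (z.2.1, (z.1.2, z.2.2)))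
                left_inv := fun z => rfl
                right_inv := fun z => rfl
                map_add' := fun x y => rfl }
      · rw [Nat.card_prod, Nat.card_zmod, hG, hK]
        calc AddMonoid.exponent G * (AddMonoid.exponent K * Nat.card K')
            ≤ AddMonoid.exponent G * (AddMonoid.exponent K
              * (Nat.card A ^ 2 * AddMonoid.exponent K)) := by
              refine Nat.mul_le_mul_left _ (Nat.mul_le_mul_left _ (hb.trans ?_))
              exact Nat.mul_le_mul_left _ hdvd'
          _ = (AddMonoid.exponent K * Nat.card A) ^ 2 * AddMonoid.exponent G := by ring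

end TH964.HP
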