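import Pool.Agent.TH964.HP.Obs
import Pool.Agent.TH964.HP.Grp

set_option autoImplicit false

/-! Hall-Paige for Latin squares: transversals in abelian extensions of a Latin square. -/

namespace TH964.HP

open Finset

theorem weights_of_unobstructed {n : ℕ} (L : Fin n → Fin n → Fin n) (hL : IsLatin L)
    (h : ¬ Obstructed n L) : ∃ w : Fin n → Fin n → ℤ, lineSums L w = (1, 1, 1) := by
  classical
  rcases Nat.eq_zero_or_pos n with h0 | h0
  · subst h0
    exact ⟨fun i => i.elim0, Prod.ext (funext fun i => i.elim0)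
      (Prod.ext (funext fun i => i.elim0) (funext fun i => i.elim0))⟩
  · refine exists_weights L ?_
    intro T _ a b c hab
    by_contra hne
    apply h
    have := total_obstructed L hL ⟨0, h0⟩ ⟨0, h0⟩ a b c hab hne
    rwa [Fintype.card_fin] at this

theorem cells_symbol {n : ℕ} (L : Fin n → Fin n → Fin n) (hL : IsLatin L) (k : Fin n) (x : ℤ) :
    ∑ i, ∑ j, (if L i j = k then x else 0) = n * x := by
  classical
  have : ∀ i, ∑ j, (if L i j = k then x else 0) = x := by
    intro i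
    obtain ⟨j, hj, hu⟩ := Function.Bijective.existsUnique (hL.1 i) k
    rw [Finset.sum_eq_single j]
    · rw [if_pos hj]
    · intro b _ hb
      rw [if_neg]
      intro h; exact hb (hu b h)
    · simp
  simp [this]

theorem scaled {n : ℕ} (L : Fin n → Fin n → Fin n) (hL : IsLatin L) (w : Fin n → Fin n → ℤ)
    (hw : lineSums L w = (1, 1, 1)) :
    ∃ m₀ : ℕ, ∀ N ≥ m₀, ∃ ws : Fin n → Fin n → Fin n → ℕ,
      (∀ i j, ∑ s, ws s i j = N) ∧ (∀ s i, ∑ j, ws s i j = N) ∧ (∀ s j, ∑ i, ws s i j = N) ∧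
      (∀ s k, ∑ i, ∑ j, (if L i j = k then ws s i j else 0) = N) := by
  classical
  rcases Nat.eq_zero_or_pos n with h0 | h0
  · subst h0
    exact ⟨0, fun N _ => ⟨fun s => s.elim0, fun i => i.elim0, fun i => i.elim0, fun i => i.elim0,
      fun i => i.elim0⟩⟩
  have hw1 : ∀ i, ∑ j, w i j = 1 := fun i => congrFun (congrArg Prod.fst hw) i
  have hw2 : ∀ j, ∑ i, w i j = 1 := fun j => congrFun (congrArg (fun x => x.2.1) hw) j
  have hw3 : ∀ k, ∑ i, ∑ j, (if L i j = k then w i j else 0) = 1 :=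
    fun k => congrFun (congrArg (fun x => x.2.2) hw) k
  -- number of cells with a given symbol is used through the constant matrix
  obtain ⟨K, hK⟩ : ∃ K : ℕ, ∀ i j, |w i j| ≤ K := by
    refine ⟨∑ i, ∑ j, (w i j).natAbs, fun i j => ?_⟩
    have h1 : (w i j).natAbs ≤ ∑ j, (w i j).natAbs :=
      Finset.single_le_sum (f := fun j => (w i j).natAbs) (fun _ _ => Nat.zero_le _) (mem_univ j)
    have h2 : ∑ j, (w i j).natAbs ≤ ∑ i, ∑ j, (w i j).natAbs :=
      Finset.single_le_sum (f := fun i => ∑ j, (w i j).natAbs) (fun _ _ => Nat.zero_le _) (mem_univ i)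
    have h3 := h1.trans h2
    rw [Int.abs_eq_natAbs]
    exact_mod_cast h3
  refine ⟨n * (n * n * K) + n, fun N hN => ?_⟩
  obtain ⟨t, r, hr, hNt⟩ : ∃ t r : ℕ, r < n ∧ N = n * t + r :=
    ⟨N / n, N % n, Nat.mod_lt _ h0, (Nat.div_add_mod N n).symm⟩
  have ht : n * n * K ≤ t := by
    by_contra hlt
    push Not at hlt
    have h1 : n * t + r < n * (t + 1) := by rw [mul_add, mul_one]; omega
    have h2 : n * (t + 1) ≤ n * (n * n * K) := Nat.mul_le_mul_left _ hlt
    omega
  obtain ⟨v, hv⟩ : ∃ v : Fin n → Fin n → ℤ, v = fun i j => (t : ℤ) + r * w i j := ⟨_, rfl⟩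
  have hrw : ∀ i j, |(r : ℤ) * w i j| ≤ n * K := by
    intro i j
    rw [abs_mul]
    have h1 : |(r : ℤ)| ≤ n := by
      rw [abs_of_nonneg (by positivity)]
      exact_mod_cast hr.le
    exact mul_le_mul h1 (hK i j) (abs_nonneg _) (by positivity)
  have htZ : (n : ℤ) * n * K ≤ t := by exact_mod_cast ht
  have hnZ : (1 : ℤ) ≤ n := by exact_mod_cast h0
  have hKZ : (0 : ℤ) ≤ K := by positivity
  have hNZ : (N : ℤ) = n * t + r := by exact_mod_cast hNt
  have hv0 : ∀ i j, 0 ≤ v i j := by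
    intro i j
    have h1 := (abs_le.1 (hrw i j)).1
    have h2 : (n : ℤ) * K ≤ n * n * K := by nlinarith [mul_nonneg (show (0:ℤ) ≤ n by omega) hKZ]
    rw [hv]; simp only; linarith
  have hvN : ∀ i j, ((n : ℤ) - 1) * v i j ≤ N := by
    intro i j
    have h1 := (abs_le.1 (hrw i j)).2
    have h2 : v i j ≤ t + n * K := by rw [hv]; simp only; linarith
    have h3 : ((n : ℤ) - 1) * v i j ≤ (n - 1) * (t + n * K) :=
      mul_le_mul_of_nonneg_left h2 (by linarith)
    have h4 : (0 : ℤ) ≤ r := by positivity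
    have h5 : ((n : ℤ) - 1) * (n * K) ≤ n * n * K := by nlinarith [mul_nonneg (show (0:ℤ) ≤ n by omega) hKZ]
    rw [hNZ]
    nlinarith
  have s1 : ∀ i, ∑ j, v i j = N := by
    intro i
    rw [hv]
    simp only
    rw [Finset.sum_add_distrib, ← Finset.mul_sum, hw1, hNZ]
    simp
  have s2 : ∀ j, ∑ i, v i j = N := by
    intro j
    rw [hv]
    simp only
    rw [Finset.sum_add_distrib, ← Finset.mul_sum, hw2, hNZ]
    simp
  have s3 : ∀ k, ∑ i, ∑ j, (if L i j = k then v i j else 0) = N := by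
    intro k
    have : ∀ i j, (if L i j = k then v i j else 0)
        = (if L i j = k then (t : ℤ) else 0) + r * (if L i j = k then w i j else 0) := by
      intro i j
      rw [hv]
      split_ifs <;> simp
    simp_rw [this, Finset.sum_add_distrib, ← Finset.mul_sum]
    rw [cells_symbol L hL, hw3, hNZ]
    ring
  obtain ⟨u, hu⟩ : ∃ u : Fin n → Fin n → Fin n → ℤ,
      u = fun s i j => if s = ⟨0, h0⟩ then (N : ℤ) - (n - 1) * v i j else v i j := ⟨_, rfl⟩
  have hu0 : ∀ s i j, 0 ≤ u s i j := by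
    intro s i j
    rw [hu]
    simp only
    split_ifs
    · have := hvN i j
      linarith
    · exact hv0 i j
  have e0 : ∀ s i j, ((u s i j).toNat : ℤ) = u s i j := fun s i j => Int.toNat_of_nonneg (hu0 s i j)
  refine ⟨fun s i j => (u s i j).toNat, ?_, ?_, ?_, ?_⟩
  · intro i j
    zify
    simp_rw [e0]
    rw [hu]
    simp only
    rw [← Finset.add_sum_erase _ _ (mem_univ (⟨0, h0⟩ : Fin n)), if_pos rfl]
    rw [Finset.sum_congr rfl (g := fun _ => v i j) (by
      intro x hx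
      rw [if_neg (Finset.ne_of_mem_erase hx)])]
    rw [Finset.sum_const, Finset.card_erase_of_mem (mem_univ _), Finset.card_univ, Fintype.card_fin,
      nsmul_eq_mul, Nat.cast_sub h0]
    push_cast
    ring
  · intro s i
    zify
    simp_rw [e0]
    rw [hu]
    simp only
    split_ifs
    · rw [Finset.sum_sub_distrib, ← Finset.mul_sum, s1]
      simp
      ring
    · exact s1 i
  · intro s j
    zify
    simp_rw [e0]
    rw [hu]
    simp only
    split_ifs
    · rw [Finset.sum_sub_distrib, ← Finset.mul_sum, s2]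
      simp
      ring
    · exact s2 j
  · intro s k
    zify
    simp_rw [e0]
    rw [hu]
    simp only
    split_ifs
    · have : ∀ i j, (if L i j = k then (N : ℤ) - (n - 1) * v i j else 0)
          = (if L i j = k then (N : ℤ) else 0) - (n - 1) * (if L i j = k then v i j else 0) := by
        intro i j
        split_ifs <;> simp
      simp_rw [this, Finset.sum_sub_distrib, ← Finset.mul_sum]
      rw [cells_symbol L hL, s3]
      ring
    · exact s3 k

/-- One constant for all Latin squares of order `n`. -/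
theorem uniform_bound (n : ℕ) : ∃ m₀ : ℕ, ∀ L : Fin n → Fin n → Fin n, IsLatin L →
    ¬ Obstructed n L → ∀ N ≥ m₀, ∃ ws : Fin n → Fin n → Fin n → ℕ,
      (∀ i j, ∑ s, ws s i j = N) ∧ (∀ s i, ∑ j, ws s i j = N) ∧ (∀ s j, ∑ i, ws s i j = N) ∧
      (∀ s k, ∑ i, ∑ j, (if L i j = k then ws s i j else 0) = N) := by
  classical
  have h : ∀ L : Fin n → Fin n → Fin n, ∃ m : ℕ, IsLatin L → ¬ Obstructed n L → ∀ N ≥ m,
      ∃ ws : Fin n → Fin n → Fin n → ℕ,
      (∀ i j, ∑ s, ws s i j = N) ∧ (∀ s i, ∑ j, ws s i j = N) ∧ (∀ s j, ∑ i, ws s i j = N) ∧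
      (∀ s k, ∑ i, ∑ j, (if L i j = k then ws s i j else 0) = N) := by
    intro L
    by_cases hL : IsLatin L ∧ ¬ Obstructed n L
    · obtain ⟨w, hw⟩ := weights_of_unobstructed L hL.1 hL.2
      obtain ⟨m, hm⟩ := scaled L hL.1 w hw
      exact ⟨m, fun _ _ => hm⟩
    · exact ⟨0, fun h1 h2 => absurd ⟨h1, h2⟩ hL⟩
  choose m hm using h
  refine ⟨univ.sup m, fun L hL hO N hN => hm L hL hO N (le_trans ?_ hN)⟩
  exact Finset.le_sup (f := m) (mem_univ L)

theorem decomposes_iso {R C S R' C' S' : Type} (P : R → C → S) (P' : R' → C' → S')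
    (eR : R' ≃ R) (eC : C' ≃ C) (eS : S' ≃ S) (h : ∀ r c, eS (P' r c) = P (eR r) (eC c))
    (hP : Decomposes P) : Decomposes P' := by
  obtain ⟨T, σ, h1, h2⟩ := hP
  refine ⟨T, fun t => eR.trans ((σ t).trans eC.symm), fun t => ?_, fun r c => ?_⟩
  · have : (fun r => P' r ((eR.trans ((σ t).trans eC.symm)) r))
        = eS.symm ∘ (fun r => P r (σ t r)) ∘ eR := by
      funext r
      simp only [Equiv.trans_apply, Function.comp_apply]
      rw [Equiv.eq_symm_apply, h, Equiv.apply_symm_apply]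
    rw [this]
    exact eS.symm.bijective.comp ((h1 t).comp eR.bijective)
  · obtain ⟨t, ht, hu⟩ := h2 (eR r) (eC c)
    refine ⟨t, by simp [ht], fun t' ht' => hu t' ?_⟩
    simp only [Equiv.trans_apply] at ht'
    rw [← ht', Equiv.apply_symm_apply]

theorem hasTransversal_of_decomposes {R C S : Type} (L : R → C → S) (e : R ≃ C) (e' : R ≃ S)
    (h : Decomposes L) : HasTransversal L := by
  obtain ⟨T, σ, h1, h2⟩ := h
  by_cases hR : Nonempty R
  · obtain ⟨r⟩ := hR
    obtain ⟨t, -, -⟩ := h2 r (e r)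
    exact ⟨σ t, h1 t⟩
  · refine ⟨e, ?_⟩
    rw [not_nonempty_iff] at hR
    have : IsEmpty S := e'.symm.isEmpty
    exact ⟨fun a => (IsEmpty.false a).elim, fun b => (IsEmpty.false b).elim⟩

theorem sum_fibres {X T : Type} [Fintype X] [AddCommGroup T] {n : ℕ} (f : X → Fin n) (d : ℕ)
    (hf : ∀ i, Nat.card {x // f x = i} = d) (α : Fin n → T) :
    ∑ x, α (f x) = d • ∑ i, α i := by
  classical
  rw [← Finset.sum_fiberwise (s := univ) (g := f), Finset.smul_sum]
  refine Finset.sum_congr rfl (fun i _ => ?_)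
  rw [Finset.sum_congr rfl (g := fun _ => α i) (by
    intro x hx
    rw [(mem_filter.1 hx).2]), Finset.sum_const]
  congr 1
  rw [← hf i, Nat.card_eq_fintype_card, Fintype.card_subtype]

theorem not_obstructed_of_cover {n : ℕ} (L : Fin n → Fin n → Fin n) (hL : IsLatin L)
    {R C S : Type} [Finite R] [Finite C] [Finite S] (P : R → C → S) (d : ℕ) (hd : Odd d)
    (fR : R → Fin n) (fC : C → Fin n) (fS : S → Fin n)
    (hR : ∀ i, Nat.card {x // fR x = i} = d) (hC : ∀ i, Nat.card {x // fC x = i} = d)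
    (hS : ∀ i, Nat.card {x // fS x = i} = d) (hP : ∀ r c, fS (P r c) = L (fR r) (fC c))
    (h : HasTransversal P) : ¬ Obstructed n L := by
  classical
  rintro ⟨s, t, hs, ht, hn, α, β, γ, hα, hh⟩
  have hn0 : 0 < n := by
    rw [hn]
    have := ht.pos
    positivity
  have := Fintype.ofFinite R
  have := Fintype.ofFinite C
  have := Fintype.ofFinite S
  obtain ⟨σ, hσ⟩ := h
  refine obstructed_total L hL ⟨0, hn0⟩ ⟨0, hn0⟩ s t hs ht (by rw [Fintype.card_fin]; exact hn)
    α β γ hα hh d hd ?_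
  have e1 : ∑ r : R, α (fR r) = d • ∑ i, α i := sum_fibres fR d hR α
  have e2 : ∑ r : R, β (fC (σ r)) = d • ∑ i, β i := by
    rw [σ.sum_comp (fun c => β (fC c))]
    exact sum_fibres fC d hC β
  have e3 : ∑ r : R, γ (fS (P r (σ r))) = d • ∑ i, γ i := by
    have := (Equiv.ofBijective _ hσ).sum_comp (fun c => γ (fS c))
    simp only [Equiv.ofBijective_apply] at this
    rw [this]
    exact sum_fibres fS d hS γ
  rw [smul_sub, smul_add, ← e1, ← e2, ← e3, ← Finset.sum_add_distrib, ← Finset.sum_sub_distrib]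
  refine Finset.sum_eq_zero (fun r _ => ?_)
  rw [hP, hh]
  exact sub_self _

/-- Multiplication by a number prime to the order. -/
noncomputable def mulEq (V : Type) [AddCommGroup V] (a : ℕ) (h : (Nat.card V).Coprime a) : V ≃+ V :=
  { nsmulCoprime h with
    map_add' := fun x y => smul_add a x y }

theorem mulEq_apply (V : Type) [AddCommGroup V] (a : ℕ) (h : (Nat.card V).Coprime a) (x : V) :
    mulEq V a h x = a • x := rfl

/-- There is a Latin square with a transversal and a map onto `L` with odd fibres. -/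
def HasOddCover {n : ℕ} (L : Fin n → Fin n → Fin n) : Prop :=
  ∃ (R C S : Type) (_ : Finite R) (_ : Finite C) (_ : Finite S) (P : R → C → S) (d : ℕ)
    (fR : R → Fin n) (fC : C → Fin n) (fS : S → Fin n),
    IsLatin P ∧ Odd d ∧ (∀ i, Nat.card {x // fR x = i} = d) ∧ (∀ i, Nat.card {x // fC x = i} = d) ∧
    (∀ i, Nat.card {x // fS x = i} = d) ∧ (∀ r c, fS (P r c) = L (fR r) (fC c)) ∧ HasTransversal P

theorem oddCover_of_product {n : ℕ} (L : Fin n → Fin n → Fin n) (hL : IsLatin L) (G : Type)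
    [AddCommGroup G] [Finite G] (hG : Odd (Nat.card G))
    (h : HasTransversal (fun r c : Fin n × G => (L r.1 c.1, r.2 + c.2))) : HasOddCover L := by
  have hc : ∀ i : Fin n, Nat.card {x : Fin n × G // x.1 = i} = Nat.card G := by
    intro i
    refine Nat.card_congr ⟨fun x => x.1.2, fun g => ⟨(i, g), rfl⟩, ?_, fun g => rfl⟩
    rintro ⟨⟨j, g⟩, rfl⟩
    rfl
  refine ⟨Fin n × G, Fin n × G, Fin n × G, inferInstance, inferInstance, inferInstance, _,
    Nat.card G, Prod.fst, Prod.fst, Prod.fst, ⟨?_, ?_⟩, hG, hc, hc, hc, fun r c => rfl, h⟩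
  · intro r
    exact ((Equiv.ofBijective _ (hL.1 r.1)).prodCongr (Equiv.addLeft r.2)).bijective
  · intro c
    exact ((Equiv.ofBijective _ (hL.2 c.1)).prodCongr (Equiv.addRight c.2)).bijective

theorem main (n : ℕ) : ∃ m₀ : ℕ, ∀ L : Fin n → Fin n → Fin n, IsLatin L →
    (Odd n → ¬ Obstructed n L) ∧
    List.TFAE [
      ¬ Obstructed n L,
      ∀ (U A : Type) [AddCommGroup U] [AddCommGroup A] [Finite U] [Finite A]
        (ρ : U →+ A) (μ : U ≃+ U) (p q : Fin n → Fin n → U ≃+ U) (p' q' : Fin n → Fin n → A ≃+ A)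
        (θ : Fin n → Fin n → U) (θ' : Fin n → Fin n → A),
        Function.Surjective ρ → Function.Injective (fun u => μ u - u) →
        (∀ i j u, ρ (p i j u) = p' i j (ρ u)) → (∀ i j u, ρ (q i j u) = q' i j (ρ u)) →
        m₀ ≤ Nat.card A → Decomposes (affExt L p q p' q' θ θ'),
      ∀ (G : Type) [AddCommGroup G] [Finite G] (a b : Fin n → Fin n → ℕ) (θ : Fin n → Fin n → G),
        Odd (Nat.card G) → (∀ i j, (Nat.card G).Coprime (a i j)) →
        (∀ i j, (Nat.card G).Coprime (b i j)) → m₀ * AddMonoid.exponent G ≤ Nat.card G →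
        Decomposes (fun r c : Fin n × G =>
          (L r.1 c.1, a r.1 c.1 • r.2 + b r.1 c.1 • c.2 + θ r.1 c.1)),
      HasOddCover L] := by
  classical
  obtain ⟨m₁, hm₁⟩ := uniform_bound n
  have hm12 : m₁ ≤ m₁ ^ 2 := by nlinarith [Nat.zero_le m₁, Nat.le_self_pow (n := 2) (by norm_num) m₁]
  refine ⟨m₁ ^ 2, fun L hL => ⟨?_, ?_⟩⟩
  · rintro hn ⟨s, t, hs, -, hst, -⟩
    rw [hst] at hn
    have : Even (2 ^ s * t) := by
      rw [Nat.even_mul, Nat.even_pow]
      left
      exact ⟨even_two, by omega⟩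
    exact (Nat.not_even_iff_odd.2 hn) this
  have key : ¬ Obstructed n L → ∀ (U A : Type) [AddCommGroup U] [AddCommGroup A] [Finite U]
      [Finite A] (ρ : U →+ A) (μ : U ≃+ U) (p q : Fin n → Fin n → U ≃+ U)
      (p' q' : Fin n → Fin n → A ≃+ A) (θ : Fin n → Fin n → U) (θ' : Fin n → Fin n → A),
      Function.Surjective ρ → Function.Injective (fun u => μ u - u) →
      (∀ i j u, ρ (p i j u) = p' i j (ρ u)) → (∀ i j u, ρ (q i j u) = q' i j (ρ u)) →
      m₁ ≤ Nat.card A → Decomposes (affExt L p q p' q' θ θ') := by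
    intro hO U A _ _ _ _ ρ μ p q p' q' θ θ' hρ hμ hp hq hA
    have := Fintype.ofFinite U
    have := Fintype.ofFinite A
    rw [Nat.card_eq_fintype_card] at hA
    obtain ⟨ws, h1, h2, h3, h4⟩ := hm₁ L hL hO _ hA
    exact decomposes_affExt rfl rfl rfl L ws h1 h2 h3 h4 ρ hρ μ hμ p q p' q' θ θ' hp hq
  tfae_have 1 → 2 := by
    intro hO U A _ _ _ _ ρ μ p q p' q' θ θ' hρ hμ hp hq hA
    exact key hO U A ρ μ p q p' q' θ θ' hρ hμ hp hq (hm12.trans hA)
  tfae_have 1 → 3 := by
    intro hO G _ _ a b θ hodd ha hb hG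
    obtain ⟨U, A, _, _, _, _, ρ, hρ, ⟨e⟩, hcard⟩ := decomp G
    have hexp : 0 < AddMonoid.exponent G := Nat.pos_of_ne_zero AddMonoid.exponent_ne_zero_of_finite
    have hA : m₁ ≤ Nat.card A := by
      by_contra hlt
      push Not at hlt
      have h1 : m₁ ^ 2 ≤ Nat.card A ^ 2 := Nat.le_of_mul_le_mul_right (hG.trans hcard) hexp
      exact absurd h1 (by
        push Not
        exact Nat.pow_lt_pow_left hlt (by norm_num))
    have hcU : Nat.card G = Nat.card U * Nat.card A := by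
      rw [Nat.card_congr e.toEquiv, Nat.card_prod]
    have hU : ∀ x : ℕ, (Nat.card G).Coprime x → (Nat.card U).Coprime x := fun x hx =>
      Nat.Coprime.coprime_dvd_left (by rw [hcU]; exact Dvd.intro _ rfl) hx
    have hA' : ∀ x : ℕ, (Nat.card G).Coprime x → (Nat.card A).Coprime x := fun x hx =>
      Nat.Coprime.coprime_dvd_left (by rw [hcU]; exact Dvd.intro_left _ rfl) hx
    have h2 : (Nat.card G).Coprime 2 := Nat.coprime_two_right.2 hodd
    have := key hO U A ρ (mulEq U 2 (hU 2 h2)) (fun i j => mulEq U (a i j) (hU _ (ha i j)))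
      (fun i j => mulEq U (b i j) (hU _ (hb i j))) (fun i j => mulEq A (a i j) (hA' _ (ha i j)))
      (fun i j => mulEq A (b i j) (hA' _ (hb i j))) (fun i j => (e (θ i j)).1)
      (fun i j => (e (θ i j)).2) hρ (by
        intro x y hxy
        simpa [mulEq_apply, two_nsmul] using hxy)
      (fun i j u => by simp [mulEq_apply]) (fun i j u => by simp [mulEq_apply]) hA
    refine decomposes_iso _ _ ((Equiv.refl (Fin n)).prodCongr e.toEquiv)
      ((Equiv.refl (Fin n)).prodCongr e.toEquiv) ((Equiv.refl (Fin n)).prodCongr e.toEquiv) ?_ this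
    rintro ⟨i, g⟩ ⟨j, g'⟩
    refine Prod.ext rfl (Prod.ext ?_ ?_)
    · simp [affExt, mulEq_apply]
    · simp [affExt, mulEq_apply]
  have hexp : ∀ m : ℕ, 0 < m → AddMonoid.exponent (ZMod m × ZMod m) ≤ m := by
    intro m hm
    refine Nat.le_of_dvd hm ?_
    rw [AddMonoid.exponent_dvd_iff_forall_nsmul_eq_zero]
    rintro ⟨x, y⟩
    refine Prod.ext ?_ ?_ <;> simp
  tfae_have 3 → 4 := by
    intro h
    obtain ⟨m, hm⟩ : ∃ m, m = 2 * m₁ ^ 2 + 1 := ⟨_, rfl⟩
    have hodd : Odd m := ⟨m₁ ^ 2, hm⟩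
    have : NeZero m := ⟨hodd.pos.ne'⟩
    have hG : Odd (Nat.card (ZMod m × ZMod m)) := by
      rw [Nat.card_prod, Nat.card_zmod]; exact hodd.mul hodd
    refine oddCover_of_product L hL (ZMod m × ZMod m) hG
      (hasTransversal_of_decomposes _ (Equiv.refl _) (Equiv.refl _) ?_)
    have h1 := h (ZMod m × ZMod m) (fun _ _ => 1) (fun _ _ => 1) (fun _ _ => 0) hG
      (fun _ _ => Nat.coprime_one_right _) (fun _ _ => Nat.coprime_one_right _) (by
        rw [Nat.card_prod, Nat.card_zmod]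
        exact Nat.mul_le_mul (by omega) (hexp m hodd.pos))
    simpa using h1
  tfae_have 2 → 4 := by
    intro h
    obtain ⟨m, hm⟩ : ∃ m, m = 2 * m₁ ^ 2 + 1 := ⟨_, rfl⟩
    have hodd : Odd m := ⟨m₁ ^ 2, hm⟩
    have : NeZero m := ⟨hodd.pos.ne'⟩
    have hG : Odd (Nat.card (ZMod m × ZMod m)) := by
      rw [Nat.card_prod, Nat.card_zmod]; exact hodd.mul hodd
    refine oddCover_of_product L hL (ZMod m × ZMod m) hG
      (hasTransversal_of_decomposes _ (Equiv.refl _) (Equiv.refl _) ?_)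
    have h1 := h (ZMod m) (ZMod m) (AddMonoidHom.id _)
      (mulEq (ZMod m) 2 (by rw [Nat.card_zmod]; exact Nat.coprime_two_right.2 hodd))
      (fun _ _ => AddEquiv.refl _) (fun _ _ => AddEquiv.refl _) (fun _ _ => AddEquiv.refl _)
      (fun _ _ => AddEquiv.refl _) (fun _ _ => 0) (fun _ _ => 0) (fun x => ⟨x, rfl⟩) (by
        intro x y hxy
        simpa [mulEq_apply, two_nsmul, two_mul] using hxy)
      (fun _ _ _ => rfl) (fun _ _ _ => rfl) (by rw [Nat.card_zmod]; omega)
    have h2 : affExt L (fun _ _ => AddEquiv.refl (ZMod m)) (fun _ _ => AddEquiv.refl _)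
        (fun _ _ => AddEquiv.refl (ZMod m)) (fun _ _ => AddEquiv.refl _) (fun _ _ => 0)
        (fun _ _ => 0) = (fun r c : Fin n × (ZMod m × ZMod m) => (L r.1 c.1, r.2 + c.2)) := by
      funext r c
      refine Prod.ext rfl (Prod.ext ?_ ?_) <;> simp [affExt]
    rw [← h2]
    exact h1
  tfae_have 4 → 1 := by
    rintro ⟨R, C, S, _, _, _, P, d, fR, fC, fS, -, hd, hR, hC, hS, hP, hT⟩
    exact not_obstructed_of_cover L hL P d hd fR fC fS hR hC hS hP hT
  tfae_finish

end TH964.HP
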