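import Mathlib.Combinatorics.Hall.Basic
import Mathlib.Algebra.BigOperators.Fin
import Mathlib.Algebra.BigOperators.Group.Finset.Basic
import Mathlib.Algebra.Order.BigOperators.Group.Finset
import Mathlib.Data.Fintype.EquivFin
import Mathlib.Tactic

set_option autoImplicit false

/-! König: a nonnegative integer matrix with constant line sums is a sum of permutations. -/

namespace TH964.HP

open Finset

/-- Hall step. -/
theorem hall_step {R C : Type} [Fintype R] [Fintype C] [DecidableEq R] [DecidableEq C]
    (hcard : Fintype.card R = Fintype.card C) (N : ℕ) (hN : 0 < N) (m : R → C → ℕ)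
    (hr : ∀ r, ∑ c, m r c = N) (hc : ∀ c, ∑ r, m r c = N) :
    ∃ σ : R ≃ C, ∀ r, 0 < m r (σ r) := by
  classical
  have key : ∀ s : Finset R, s.card ≤ (s.biUnion (fun r => univ.filter (fun c => 0 < m r c))).card := by
    intro s
    set t := s.biUnion (fun r => univ.filter (fun c => 0 < m r c)) with ht
    have h1 : N * s.card = ∑ r ∈ s, ∑ c ∈ t, m r c := by
      rw [mul_comm, ← smul_eq_mul, ← Finset.sum_const]
      refine Finset.sum_congr rfl (fun r hr' => ?_)
      rw [← hr r]
      symm
      refine Finset.sum_subset (subset_univ _) (fun c _ hct => ?_)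
      by_contra hne
      apply hct
      rw [ht, mem_biUnion]
      exact ⟨r, hr', by simp [Nat.pos_of_ne_zero hne]⟩
    have h2 : ∑ r ∈ s, ∑ c ∈ t, m r c ≤ N * t.card := by
      rw [Finset.sum_comm]
      calc ∑ c ∈ t, ∑ r ∈ s, m r c ≤ ∑ c ∈ t, N := by
            refine Finset.sum_le_sum (fun c _ => ?_)
            rw [← hc c]
            exact Finset.sum_le_sum_of_subset (subset_univ _)
        _ = N * t.card := by rw [Finset.sum_const, smul_eq_mul, mul_comm]
    exact Nat.le_of_mul_le_mul_left (h1 ▸ h2) hN
  obtain ⟨f, hf, hf2⟩ := (Finset.all_card_le_biUnion_card_iff_exists_injective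
    (fun r => univ.filter (fun c => 0 < m r c))).1 key
  refine ⟨Equiv.ofBijective f ((Fintype.bijective_iff_injective_and_card f).2 ⟨hf, hcard⟩), ?_⟩
  intro r
  have := hf2 r
  simpa using this

theorem konig {R C : Type} [Fintype R] [Fintype C] [DecidableEq R] [DecidableEq C]
    (hcard : Fintype.card R = Fintype.card C) (N : ℕ) (m : R → C → ℕ)
    (hr : ∀ r, ∑ c, m r c = N) (hc : ∀ c, ∑ r, m r c = N) :
    ∃ σ : Fin N → (R ≃ C), ∀ r c, (univ.filter (fun a => σ a r = c)).card = m r c := by
  classical
  induction N generalizing m with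
  | zero =>
    refine ⟨fun a => a.elim0, fun r c => ?_⟩
    have := hr r
    rw [Finset.sum_eq_zero_iff] at this
    rw [this c (mem_univ _)]
    simp
  | succ N ih =>
    obtain ⟨τ, hτ⟩ := hall_step hcard (N + 1) (Nat.succ_pos _) m hr hc
    obtain ⟨σ, hσ⟩ := ih (fun r c => m r c - if τ r = c then 1 else 0) (by
      intro r
      have h1 : ∑ c, ((m r c - if τ r = c then 1 else 0) + if τ r = c then 1 else 0) = N + 1 := by
        rw [← hr r]
        refine Finset.sum_congr rfl (fun c _ => ?_)
        split_ifs with h
        · have := hτ r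
          rw [h] at this
          omega
        · simp
      rw [Finset.sum_add_distrib] at h1
      simp at h1
      simpa using h1) (by
      intro c
      have h1 : ∑ r, ((m r c - if τ r = c then 1 else 0) + if τ r = c then 1 else 0) = N + 1 := by
        rw [← hc c]
        refine Finset.sum_congr rfl (fun r _ => ?_)
        split_ifs with h
        · have := hτ r
          rw [h] at this
          omega
        · simp
      rw [Finset.sum_add_distrib] at h1
      have h2 : ∑ r, (if τ r = c then 1 else 0) = 1 := by
        rw [Finset.sum_eq_single (τ.symm c)]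
        · simp
        · intro b _ hb
          rw [if_neg]
          rintro rfl
          exact hb (by simp)
        · simp
      rw [h2] at h1
      simpa using h1)
    refine ⟨Fin.cons τ σ, fun r c => ?_⟩
    have h1 : (univ.filter (fun a : Fin (N + 1) => (Fin.cons τ σ : Fin (N + 1) → (R ≃ C)) a r = c)).card
        = (if τ r = c then 1 else 0) + (univ.filter (fun a : Fin N => σ a r = c)).card := by
      rw [Finset.card_filter, Fin.sum_univ_succ, Finset.card_filter]
      simp
    rw [h1, hσ]
    split_ifs with h
    · have := hτ r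
      rw [h] at this
      omega
    · simp

/-- The same with labels in any type with `N` elements. -/
theorem konig' {R C A : Type} [Fintype R] [Fintype C] [Fintype A] [DecidableEq R] [DecidableEq C]
    (hcard : Fintype.card R = Fintype.card C) (m : R → C → ℕ)
    (hr : ∀ r, ∑ c, m r c = Fintype.card A) (hc : ∀ c, ∑ r, m r c = Fintype.card A) :
    ∃ σ : A → (R ≃ C), ∀ r c, (univ.filter (fun a => σ a r = c)).card = m r c := by
  classical
  obtain ⟨σ, hσ⟩ := konig hcard (Fintype.card A) m hr hc
  refine ⟨fun a => σ (Fintype.equivFin A a), fun r c => ?_⟩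
  rw [← hσ r c]
  refine Finset.card_bij (fun a _ => Fintype.equivFin A a) ?_ ?_ ?_
  · intro a ha; simpa using ha
  · intro a _ b _ h; exact (Fintype.equivFin A).injective h
  · intro b hb
    exact ⟨(Fintype.equivFin A).symm b, by simpa using hb, by simp⟩

/-- If all fibres of `F : E → C` have `card A` elements, then `F` extends to a bijection onto
`C × A`. -/
theorem fibre_label {E C A : Type} [Fintype E] [Fintype A] [DecidableEq C]
    (F : E → C) (h : ∀ c, (univ.filter (fun e => F e = c)).card = Fintype.card A) :
    ∃ b : E → A, Function.Injective (fun e => (F e, b e)) := by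
  classical
  have h1 : ∀ c, Nonempty ({e // F e = c} ≃ A) := by
    intro c
    refine Fintype.card_eq.1 ?_
    rw [Fintype.card_subtype]
    exact h c
  refine ⟨fun e => (h1 (F e)).some ⟨e, rfl⟩, ?_⟩
  intro e e' hee
  simp only [Prod.mk.injEq] at hee
  obtain ⟨h2, h3⟩ := hee
  have h4 : ∀ (c c' : C) (x : {e // F e = c}) (y : {e // F e = c'}), c = c' →
      (h1 c).some x = (h1 c').some y → (x : E) = y := by
    intro c c' x y hc hxy
    subst hc
    exact congrArg _ ((h1 c).some.injective hxy)
  exact h4 _ _ ⟨e, rfl⟩ ⟨e', rfl⟩ h2 h3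

end TH964.HP
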