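import Pool.Agent.TH964.HP.Lat
import Mathlib.Algebra.Module.CharacterModule
import Mathlib.Topology.Instances.AddCircle.Defs
import Mathlib.Data.ZMod.Basic
import Mathlib.Data.Nat.Factorization.Basic
import Mathlib.Algebra.BigOperators.Intervals

set_option autoImplicit false

/-! The Hall-Paige obstruction for Latin squares. -/

namespace TH964.HP

open Finset

/-- There are `s ≥ 1` and an odd `t` with `n = 2 ^ s * t` and a homotopy of `L` onto the cyclic group
of order `2 ^ s`. -/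
def Obstructed {R C S : Type} (n : ℕ) (L : R → C → S) : Prop :=
  ∃ s t : ℕ, 1 ≤ s ∧ Odd t ∧ n = 2 ^ s * t ∧
    ∃ (α : R → ZMod (2 ^ s)) (β : C → ZMod (2 ^ s)) (γ : S → ZMod (2 ^ s)),
      Function.Surjective α ∧ ∀ i j, α i + β j = γ (L i j)

theorem sum_zmod_ne_zero (s : ℕ) (hs : 1 ≤ s) : ∑ x : ZMod (2 ^ s), x ≠ 0 := by
  obtain ⟨k, rfl⟩ : ∃ k, s = k + 1 := ⟨s - 1, by omega⟩
  have hpos : 0 < 2 ^ (k + 1) := by positivity
  have : NeZero (2 ^ (k + 1)) := ⟨hpos.ne'⟩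
  have h1 : ∑ x : ZMod (2 ^ (k + 1)), x = ((∑ i ∈ range (2 ^ (k + 1)), i : ℕ) : ZMod (2 ^ (k + 1))) := by
    rw [Nat.cast_sum]
    refine Finset.sum_nbij' (fun x => x.val) (fun i => (i : ZMod (2 ^ (k + 1)))) ?_ ?_ ?_ ?_ ?_
    · intro x _; exact mem_range.2 (ZMod.val_lt x)
    · intro x _; exact mem_univ _
    · intro x _; simp
    · intro x hx; exact ZMod.val_cast_of_lt (mem_range.1 hx)
    · intro x _; simp
  rw [h1]
  intro h2
  rw [ZMod.natCast_eq_zero_iff] at h2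
  have h3 := Finset.sum_range_id_mul_two (2 ^ (k + 1))
  obtain ⟨q, hq⟩ := h2
  rw [hq] at h3
  have h4 : q * 2 = 2 ^ (k + 1) - 1 := by
    have : 2 ^ (k + 1) * (q * 2) = 2 ^ (k + 1) * (2 ^ (k + 1) - 1) := by rw [← h3]; ring
    exact Nat.eq_of_mul_eq_mul_left hpos this
  have h5 : 2 ^ (k + 1) = 2 * 2 ^ k := by ring
  have : 0 < 2 ^ k := by positivity
  omega

theorem odd_smul {T : Type} [AddCommGroup T] (x : T) (hx : 2 • x = 0) (m : ℕ) (hm : Odd m) :
    m • x = x := by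
  obtain ⟨k, rfl⟩ := hm
  rw [add_smul, one_smul, mul_comm, mul_smul, hx, smul_zero, zero_add]

section

variable {R C S : Type} [Fintype R] [Fintype C] [Fintype S]

theorem obstructed_total (L : R → C → S) (hL : IsLatin L) (i0 : R) (j0 : C)
    (s t : ℕ) (hs : 1 ≤ s) (ht : Odd t) (hn : Fintype.card C = 2 ^ s * t)
    (α : R → ZMod (2 ^ s)) (β : C → ZMod (2 ^ s)) (γ : S → ZMod (2 ^ s))
    (hα : Function.Surjective α) (h : ∀ i j, α i + β j = γ (L i j)) (m : ℕ) (hm : Odd m) :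
    m • (∑ i, α i + ∑ j, β j - ∑ k, γ k) ≠ 0 := by
  classical
  have hpos : 0 < 2 ^ s := by positivity
  have : NeZero (2 ^ s) := ⟨hpos.ne'⟩
  rw [total L hL α β γ h i0 j0]
  have h' : ∀ i j, (α i - α i0) + (β j - β j0) = γ (L i j) - α i0 - β j0 := by
    intro i j; rw [← h]; abel
  have hr := ranges L hL (fun i => α i - α i0) (fun j => β j - β j0)
    (fun k => γ k - α i0 - β j0) h' i0 j0 (by simp) (by simp)
  obtain ⟨f, hf1, hf2, hf3, hf4⟩ := core L hL (fun i => α i - α i0) (fun j => β j - β j0)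
    (fun k => γ k - α i0 - β j0) h' i0 j0 (by simp) (by simp)
  have hD : univ.image (fun j => β j - β j0) = (univ : Finset (ZMod (2 ^ s))) := by
    rw [Finset.eq_univ_iff_forall]
    intro x
    obtain ⟨i, hi⟩ := hα (x + α i0)
    obtain ⟨j, hj⟩ := (hr x).1 ⟨i, by simp [hi]⟩
    exact mem_image.2 ⟨j, mem_univ _, hj⟩
  rw [hD] at hf1 hf2 hf3
  rw [Finset.card_univ, ZMod.card, hn] at hf1
  have hft : f = t := by
    have : 2 ^ s * f = 2 ^ s * t := by rw [← hf1]; ring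
    exact Nat.eq_of_mul_eq_mul_left hpos this
  rw [hf2, hft, odd_smul _ hf3 t ht, odd_smul _ hf3 m hm]
  exact sum_zmod_ne_zero s hs

theorem total_obstructed (L : R → C → S) (hL : IsLatin L) (i0 : R) (j0 : C)
    {T : Type} [AddCommGroup T] (a : R → T) (b : C → T) (c : S → T)
    (h : ∀ i j, a i + b j = c (L i j)) (hne : ∑ i, a i + ∑ j, b j - ∑ k, c k ≠ 0) :
    Obstructed (Fintype.card C) L := by
  classical
  obtain ⟨χ, hχ⟩ := CharacterModule.exists_character_apply_ne_zero_of_ne_zero hne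
  rw [total L hL a b c h i0 j0] at hχ
  have hcard : Fintype.card C ≠ 0 := by
    have : Nonempty C := ⟨j0⟩
    exact Fintype.card_ne_zero
  obtain ⟨s, t, ht, hn⟩ := Nat.exists_eq_two_pow_mul_odd hcard
  have hpos : 0 < 2 ^ s := by positivity
  have : NeZero (2 ^ s) := ⟨hpos.ne'⟩
  -- first normalisation
  have h1 : ∀ i j, χ (a i - a i0) + χ (b j - b j0) = χ (c (L i j) - a i0 - b j0) := by
    intro i j; rw [← h, ← map_add]; congr 1; abel
  obtain ⟨f, hf1, hf2, hf3, hf4⟩ := core L hL (fun i => χ (a i - a i0)) (fun j => χ (b j - b j0))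
    (fun k => χ (c k - a i0 - b j0)) h1 i0 j0 (by simp) (by simp)
  have hτ2 : 2 • χ (∑ j, (b j - b j0)) = 0 := by
    rw [map_sum]
    rw [hf2, smul_comm, hf3, smul_zero]
  have hkill : ∀ j, 2 ^ s • (t • χ (b j - b j0)) = 0 := by
    intro j
    have := hf4 (χ (b j - b j0)) (mem_image.2 ⟨j, mem_univ _, rfl⟩)
    rw [← mul_smul, ← hn, ← hf1, mul_smul, this, smul_zero]
  -- second normalisation
  have h2 : ∀ i j, t • χ (a i - a i0) + t • χ (b j - b j0) = t • χ (c (L i j) - a i0 - b j0) := by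
    intro i j; rw [← h1, smul_add]
  obtain ⟨g, hg1, hg2, hg3, -⟩ := core L hL (fun i => t • χ (a i - a i0))
    (fun j => t • χ (b j - b j0)) (fun k => t • χ (c k - a i0 - b j0)) h2 i0 j0
    (by simp) (by simp)
  have hr := ranges L hL (fun i => t • χ (a i - a i0))
    (fun j => t • χ (b j - b j0)) (fun k => t • χ (c k - a i0 - b j0)) h2 i0 j0
    (by simp) (by simp)
  set D := univ.image (fun j => t • χ (b j - b j0)) with hD
  have hsum : g • ∑ y ∈ D, y ≠ 0 := by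
    rw [← hg2, ← Finset.smul_sum, ← map_sum, odd_smul _ hτ2 t ht]
    exact hχ
  have hgodd : Odd g := by
    rw [← Nat.not_even_iff_odd]
    rintro ⟨q, hq⟩
    apply hsum
    rw [hq, ← two_mul, mul_comm, mul_smul, hg3, smul_zero]
  -- the cyclic group
  let f0 : ℤ →+ AddCircle (1 : ℚ) := zmultiplesHom _ (((1 : ℚ) / (2 ^ s : ℕ) : ℚ) : AddCircle (1 : ℚ))
  have hord : addOrderOf (((1 : ℚ) / (2 ^ s : ℕ) : ℚ) : AddCircle (1 : ℚ)) = 2 ^ s := by
    have : Fact ((0 : ℚ) < 1) := ⟨by norm_num⟩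
    exact AddCircle.addOrderOf_period_div hpos
  have hf0 : f0 ((2 ^ s : ℕ) : ℤ) = 0 := by
    simp only [f0, zmultiplesHom_apply, natCast_zsmul]
    exact addOrderOf_dvd_iff_nsmul_eq_zero.1 (by rw [hord])
  let ι : ZMod (2 ^ s) →+ AddCircle (1 : ℚ) := ZMod.lift (2 ^ s) ⟨f0, hf0⟩
  have hιinj : Function.Injective ι := by
    rw [ZMod.lift_injective]
    intro m hm
    have hm' : m • (((1 : ℚ) / (2 ^ s : ℕ) : ℚ) : AddCircle (1 : ℚ)) = 0 := hm
    rw [← addOrderOf_dvd_iff_zsmul_eq_zero, hord] at hm'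
    exact (ZMod.intCast_zmod_eq_zero_iff_dvd _ _).2 hm'
  have hιsurj : ∀ x : AddCircle (1 : ℚ), 2 ^ s • x = 0 → ∃ z, ι z = x := by
    intro x hx
    have : Fact ((0 : ℚ) < 1) := ⟨by norm_num⟩
    obtain ⟨m, -, hm⟩ := (AddCircle.nsmul_eq_zero_iff (u := x) hpos).1 hx
    refine ⟨((m : ℤ) : ZMod (2 ^ s)), ?_⟩
    rw [ZMod.lift_coe]
    simp only [f0, zmultiplesHom_apply, natCast_zsmul]
    rw [← hm, ← AddCircle.coe_nsmul]
    congr 1
    simp [div_eq_mul_inv]
  -- the size of D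
  have hDsub : D ⊆ univ.image ι := by
    intro y hy
    obtain ⟨j, -, rfl⟩ := mem_image.1 hy
    obtain ⟨z, hz⟩ := hιsurj _ (hkill j)
    exact mem_image.2 ⟨z, mem_univ _, hz⟩
  have hcι : (univ.image ι).card = 2 ^ s := by
    rw [Finset.card_image_of_injective _ hιinj, Finset.card_univ, ZMod.card]
  have hdvd : 2 ^ s ∣ D.card := by
    have : 2 ^ s ∣ g * D.card := by rw [hg1, hn]; exact Dvd.intro _ rfl
    exact (Nat.Coprime.dvd_of_dvd_mul_left
      ((Nat.coprime_pow_left_iff (by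
        rcases Nat.eq_zero_or_pos s with h0 | h0
        · exfalso
          subst h0
          apply hsum
          have : ∑ y ∈ D, y = 0 := by
            refine Finset.sum_eq_zero (fun y hy => ?_)
            obtain ⟨j, -, rfl⟩ := mem_image.1 hy
            simpa using hkill j
          rw [this, smul_zero]
        · exact h0) _ _).2 (Nat.coprime_two_left.2 hgodd)) this)
  have hDpos : 0 < D.card := Finset.card_pos.2 ⟨_, mem_image.2 ⟨j0, mem_univ _, rfl⟩⟩
  have hDeq : D = univ.image ι := by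
    refine Finset.eq_of_subset_of_card_le hDsub ?_
    rw [hcι]
    exact Nat.le_of_dvd hDpos hdvd
  have hs : 1 ≤ s := by
    rcases Nat.eq_zero_or_pos s with h0 | h0
    · exfalso
      subst h0
      apply hsum
      have : ∑ y ∈ D, y = 0 := by
        refine Finset.sum_eq_zero (fun y hy => ?_)
        obtain ⟨j, -, rfl⟩ := mem_image.1 hy
        simpa using hkill j
      rw [this, smul_zero]
    · exact h0
  -- preimages
  have hb : ∀ j, ∃ z, ι z = t • χ (b j - b j0) := fun j => hιsurj _ (hkill j)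
  have ha : ∀ i, ∃ z, ι z = t • χ (a i - a i0) := by
    intro i
    obtain ⟨j, hj⟩ := (hr (t • χ (a i - a i0))).1 ⟨i, rfl⟩
    obtain ⟨z, hz⟩ := hb j
    exact ⟨z, hz.trans hj⟩
  choose β hβ using hb
  choose α hα using ha
  have hc : ∀ k, ∃ z, ι z = t • χ (c k - a i0 - b j0) := by
    intro k
    obtain ⟨j, rfl⟩ := (hL.1 i0).2 k
    refine ⟨α i0 + β j, ?_⟩
    rw [map_add, hα, hβ, h2]
  choose γ hγ using hc
  refine ⟨s, t, hs, ht, hn, α, β, γ, ?_, ?_⟩
  · intro z
    have hz : ι z ∈ D := by rw [hDeq]; exact mem_image.2 ⟨z, mem_univ _, rfl⟩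
    obtain ⟨j, -, hj⟩ := mem_image.1 hz
    obtain ⟨i, hi⟩ := (hr (ι z)).2 ⟨j, hj⟩
    refine ⟨i, hιinj ?_⟩
    rw [hα]
    exact hi
  · intro i j
    apply hιinj
    rw [map_add, hα, hβ, hγ, h2]

end

end TH964.HP
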