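import Pool.Agent.TH964.HP.Konig

set_option autoImplicit false

/-! Decompositions of affine extensions of a Latin square. -/

namespace TH964.HP

open Finset

/-- A square array `L` with rows `R`, columns `C` and symbols `S` is a Latin square: in every row
and in every column every symbol occurs exactly once. -/
def IsLatin {R C S : Type} (L : R → C → S) : Prop :=
  (∀ r, Function.Bijective (L r)) ∧ (∀ c, Function.Bijective (fun r => L r c))

/-- The cells of `L` are partitioned into transversals `σ t`, `t ∈ T` (each given as a bijection from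
rows to columns whose symbols are all different and exhaust the symbols). -/
def Decomposes {R C S : Type} (L : R → C → S) : Prop :=
  ∃ (T : Type) (σ : T → R ≃ C), (∀ t, Function.Bijective (fun r => L r (σ t r))) ∧
    ∀ r c, ∃! t, σ t r = c

/-- `L` has a transversal. -/
def HasTransversal {R C S : Type} (L : R → C → S) : Prop :=
  ∃ σ : R ≃ C, Function.Bijective (fun r => L r (σ r))

/-- The affine extension of `L` by `U × A` with coefficients `a, b` (on `U`), `a', b'` (on `A`) and
shifts `θ, θ'`. -/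
def affExt {R C S U A : Type} [AddCommGroup U] [AddCommGroup A] (L : R → C → S)
    (a b : R → C → U ≃+ U) (a' b' : R → C → A ≃+ A) (θ : R → C → U) (θ' : R → C → A) :
    R × (U × A) → C × (U × A) → S × (U × A) :=
  fun r c => (L r.1 c.1, (a r.1 c.1 r.2.1 + b r.1 c.1 c.2.1 + θ r.1 c.1,
    a' r.1 c.1 r.2.2 + b' r.1 c.1 c.2.2 + θ' r.1 c.1))

theorem decomposes_affExt {U A : Type} [AddCommGroup U] [AddCommGroup A] [Fintype U] [Fintype A]
    {R C S T : Type} [Fintype R] [Fintype C] [Fintype S] [Fintype T]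
    [DecidableEq R] [DecidableEq C] [DecidableEq S] [DecidableEq T]
    (hRC : Fintype.card R = Fintype.card C) (hRS : Fintype.card R = Fintype.card S)
    (hTC : Fintype.card T = Fintype.card C)
    (L : R → C → S) (ws : T → R → C → ℕ)
    (h1 : ∀ i j, ∑ s, ws s i j = Fintype.card A)
    (h2 : ∀ s i, ∑ j, ws s i j = Fintype.card A)
    (h3 : ∀ s j, ∑ i, ws s i j = Fintype.card A)
    (h4 : ∀ s k, ∑ i, ∑ j, (if L i j = k then ws s i j else 0) = Fintype.card A)
    (ρ : U →+ A) (hρ : Function.Surjective ρ)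
    (μ : U ≃+ U) (hμ : Function.Injective (fun u => μ u - u))
    (p q : R → C → U ≃+ U) (p' q' : R → C → A ≃+ A) (θ : R → C → U) (θ' : R → C → A)
    (hp : ∀ i j u, ρ (p i j u) = p' i j (ρ u)) (hq : ∀ i j u, ρ (q i j u) = q' i j (ρ u)) :
    Decomposes (affExt L p q p' q' θ θ') := by
  classical
  -- rows
  have hk : ∀ i, ∃ σ : A → (T ≃ C), ∀ s j, (univ.filter (fun a => σ a s = j)).card = ws s i j :=
    fun i => konig' hTC (fun s j => ws s i j) (fun s => h2 s i) (fun j => h1 i j)
  choose σ hσ using hk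
  -- columns
  have hb : ∀ s, ∃ b : R × A → A, Function.Injective (fun e : R × A => (σ e.1 e.2 s, b e)) := by
    intro s
    refine fibre_label (fun e : R × A => σ e.1 e.2 s) (fun j => ?_)
    rw [← h3 s j, Finset.card_filter, Fintype.sum_prod_type]
    refine Finset.sum_congr rfl (fun i _ => ?_)
    rw [← hσ i s j, Finset.card_filter]
  choose b hb using hb
  -- symbols
  have hc : ∀ s, ∃ c : R × A → A,
      Function.Injective (fun e : R × A => (L e.1 (σ e.1 e.2 s), c e)) := by
    intro s
    refine fibre_label (fun e : R × A => L e.1 (σ e.1 e.2 s)) (fun k => ?_)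
    rw [← h4 s k, Finset.card_filter, Fintype.sum_prod_type]
    refine Finset.sum_congr rfl (fun i _ => ?_)
    have : ∀ j, (if L i j = k then ws s i j else 0)
        = ∑ a : A, (if σ i a s = j then (if L i j = k then 1 else 0) else 0) := by
      intro j
      rw [← hσ i s j, Finset.card_filter]
      split_ifs with h
      · rfl
      · simp
    simp_rw [this]
    rw [Finset.sum_comm]
    refine Finset.sum_congr rfl (fun a _ => ?_)
    simp
  choose c hc using hc
  choose lift hlift using hρ
  -- the shift in `U`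
  let ka : T → U × A → R × A → U := fun s t e =>
    lift (c s e - p' e.1 (σ e.1 e.2 s) e.2 - q' e.1 (σ e.1 e.2 s) (b s e) - θ' e.1 (σ e.1 e.2 s))
      + t.1 - lift (q' e.1 (σ e.1 e.2 s) t.2)
  -- the instance of a row
  let ins : R × (U × A) → R × A := fun r => (r.1, r.2.2 - ρ r.2.1)
  let jj : T → R × (U × A) → C := fun s r => σ (ins r).1 (ins r).2 s
  let yy : T → U × A → R × (U × A) → U := fun s t r =>
    μ.symm ((q r.1 (jj s r)).symm (ka s t (ins r) - p r.1 (jj s r) r.2.1))
  let Φ : T → U × A → R × (U × A) → C × (U × A) := fun s t r =>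
    (jj s r, (yy s t r, ρ (μ (yy s t r)) + (b s (ins r) + t.2)))
  have hy : ∀ s t r, p r.1 (jj s r) r.2.1 + q r.1 (jj s r) (μ (yy s t r)) = ka s t (ins r) := by
    intro s t r
    simp only [yy, AddEquiv.apply_symm_apply]
    abel
  have hsym2 : ∀ s t r, (affExt L p q p' q' θ θ' r (Φ s t r)).2.2 = c s (ins r) + ρ t.1 := by
    intro s t r
    have e1 := congrArg ρ (hy s t r)
    rw [map_add, hp, hq] at e1
    simp only [ka, map_sub, map_add, hlift] at e1
    simp only [affExt, Φ, map_add]
    have e2 : r.2.2 = ρ r.2.1 + (ins r).2 := by simp [ins]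
    have e3 : p' r.1 (jj s r) r.2.2 = p' r.1 (jj s r) (ρ r.2.1) + p' r.1 (jj s r) (ins r).2 := by
      rw [← map_add, ← e2]
    rw [e3]
    have e4 : p' (ins r).1 (σ (ins r).1 (ins r).2 s) (ins r).2 = p' r.1 (jj s r) (ins r).2 := rfl
    have e5 : q' (ins r).1 (σ (ins r).1 (ins r).2 s) (b s (ins r)) = q' r.1 (jj s r) (b s (ins r)) :=
      rfl
    have e6 : θ' (ins r).1 (σ (ins r).1 (ins r).2 s) = θ' r.1 (jj s r) := rfl
    have e7 : q' (ins r).1 (σ (ins r).1 (ins r).2 s) t.2 = q' r.1 (jj s r) t.2 := rfl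
    rw [e4, e5, e6, e7] at e1
    have e8 : q' r.1 (jj s r) (ρ (μ (yy s t r))) = c s (ins r) - p' r.1 (jj s r) (ins r).2
        - q' r.1 (jj s r) (b s (ins r)) - θ' r.1 (jj s r) + ρ t.1 - q' r.1 (jj s r) t.2
        - p' r.1 (jj s r) (ρ r.2.1) := by
      rw [← e1]; abel
    rw [e8]
    abel
  have hΦ : ∀ s t, Function.Injective (Φ s t) := by
    intro s t r r' h
    simp only [Φ, Prod.mk.injEq] at h
    obtain ⟨f1, f2, f3⟩ := h
    rw [f2] at f3
    have f4 := add_right_cancel (add_left_cancel f3)
    have f5 : ins r = ins r' := hb s (Prod.ext f1 f4)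
    have f6 : r.1 = r'.1 := by
      have f6' := congrArg Prod.fst f5
      exact f6'
    have f7 := hy s t r
    have f8 := hy s t r'
    rw [← f5, ← f1, ← f2, ← f6, ← f7] at f8
    have f9 := (p r.1 (jj s r)).injective (add_right_cancel f8)
    have f10 : r.2.2 - ρ r.2.1 = r'.2.2 - ρ r'.2.1 := by
      have f10' := congrArg Prod.snd f5
      exact f10'
    rw [f9] at f10
    exact Prod.ext f6 (Prod.ext f9.symm (sub_left_injective f10))
  have hΨ : ∀ s t, Function.Injective (fun r => affExt L p q p' q' θ θ' r (Φ s t r)) := by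
    intro s t r r' h
    have g1 : L r.1 (jj s r) = L r'.1 (jj s r') := congrArg Prod.fst h
    have g2 := congrArg (fun z => z.2.2) h
    simp only at g2
    rw [hsym2, hsym2] at g2
    have f5 : ins r = ins r' := hc s (Prod.ext g1 (add_right_cancel g2))
    have f6 : r.1 = r'.1 := by
      have f6' := congrArg Prod.fst f5
      exact f6'
    have f1 : jj s r = jj s r' := by simp only [jj, f5]
    have g3 := congrArg (fun z => z.2.1) h
    simp only [affExt, Φ] at g3
    rw [← f1, ← f6] at g3
    have g4 := add_right_cancel g3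
    have f7 := hy s t r
    have f8 := hy s t r'
    rw [← f5, ← f1, ← f6, ← f7] at f8
    -- g4 : p u + q y = p u' + q y'; f8 : p u' + q (μ y') = p u + q (μ y)
    have g5 : q r.1 (jj s r) (μ (yy s t r) - yy s t r)
        = q r.1 (jj s r) (μ (yy s t r') - yy s t r') := by
      rw [map_sub, map_sub]
      have : q r.1 (jj s r) (μ (yy s t r)) - q r.1 (jj s r) (yy s t r)
          - (q r.1 (jj s r) (μ (yy s t r')) - q r.1 (jj s r) (yy s t r'))
          = (p r.1 (jj s r) r.2.1 + q r.1 (jj s r) (μ (yy s t r)))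
            - (p r.1 (jj s r) r'.2.1 + q r.1 (jj s r) (μ (yy s t r')))
            + ((p r.1 (jj s r) r'.2.1 + q r.1 (jj s r) (yy s t r'))
              - (p r.1 (jj s r) r.2.1 + q r.1 (jj s r) (yy s t r))) := by abel
      rw [← sub_eq_zero, this, f8, g4]
      abel
    have g6 := hμ ((q r.1 (jj s r)).injective g5)
    rw [g6] at g4
    have f9 := (p r.1 (jj s r)).injective (add_right_cancel g4)
    have f10 : r.2.2 - ρ r.2.1 = r'.2.2 - ρ r'.2.1 := by
      have f10' := congrArg Prod.snd f5
      exact f10'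
    rw [f9] at f10
    exact Prod.ext f6 (Prod.ext f9 (sub_left_injective f10))
  have hcard1 : Fintype.card (R × (U × A)) = Fintype.card (C × (U × A)) :=
    Fintype.card_congr (Equiv.prodCongr (Fintype.equivOfCardEq hRC) (Equiv.refl _))
  have hcard2 : Fintype.card (R × (U × A)) = Fintype.card (S × (U × A)) :=
    Fintype.card_congr (Equiv.prodCongr (Fintype.equivOfCardEq hRS) (Equiv.refl _))
  refine ⟨T × (U × A), fun t => Equiv.ofBijective (Φ t.1 t.2)
    ((Fintype.bijective_iff_injective_and_card _).2 ⟨hΦ t.1 t.2, hcard1⟩), ?_, ?_⟩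
  · rintro ⟨s, t⟩
    exact (Fintype.bijective_iff_injective_and_card _).2 ⟨hΨ s t, hcard2⟩
  · rintro r ⟨j, y, β⟩
    obtain ⟨s, hs⟩ : ∃ s, s = (σ (ins r).1 (ins r).2).symm j := ⟨_, rfl⟩
    have hj : jj s r = j := by simp [jj, hs]
    obtain ⟨t2, ht2⟩ : ∃ t2, t2 = β - ρ (μ y) - b s (ins r) := ⟨_, rfl⟩
    obtain ⟨t1, ht1⟩ : ∃ t1, t1 = p r.1 j r.2.1 + q r.1 j (μ y)
      - lift (c s (ins r) - p' (ins r).1 (σ (ins r).1 (ins r).2 s) (ins r).2
        - q' (ins r).1 (σ (ins r).1 (ins r).2 s) (b s (ins r)) - θ' (ins r).1 (σ (ins r).1 (ins r).2 s))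
      + lift (q' (ins r).1 (σ (ins r).1 (ins r).2 s) t2) := ⟨_, rfl⟩
    have hy0 : yy s (t1, t2) r = y := by
      have h0 : ka s (t1, t2) (ins r) = p r.1 j r.2.1 + q r.1 j (μ y) := by
        simp only [ka]
        rw [ht1]
        abel
      simp only [yy]
      rw [hj, h0, add_sub_cancel_left]
      simp
    refine ⟨(s, (t1, t2)), ?_, ?_⟩
    · simp only [Equiv.ofBijective_apply, Φ]
      rw [hy0, hj, ht2]
      refine Prod.ext rfl (Prod.ext rfl ?_)
      simp
    · rintro ⟨s', t1', t2'⟩ h
      simp only [Equiv.ofBijective_apply, Φ, Prod.mk.injEq] at h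
      obtain ⟨k1, k2, k3⟩ := h
      have k4 : s' = s := by
        rw [hs, Equiv.eq_symm_apply]
        exact k1
      subst k4
      rw [k2] at k3
      have k5 : t2' = t2 := by
        rw [ht2, ← k3]
        abel
      subst k5
      have k6 := hy s' (t1', t2') r
      rw [k2, k1] at k6
      have k7 : t1' = t1 := by
        rw [ht1, k6]
        simp only [ka]
        abel
      rw [k7]

end TH964.HP
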