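import Pool.Agent.TH964.HP.Ext
import Mathlib.GroupTheory.QuotientGroup.Basic

set_option autoImplicit false

/-! Homotopies of Latin squares into abelian groups, and integer weights. -/

namespace TH964.HP

open Finset

section core

variable {R C S T : Type} [Fintype R] [Fintype C] [Fintype S] [AddCommGroup T]

/-- The permutation of the columns attached to a row. -/
theorem perm_col (L : R → C → S) (hL : IsLatin L) (α : R → T) (β : C → T) (γ : S → T)
    (h : ∀ i j, α i + β j = γ (L i j)) (i0 : R) (h0 : α i0 = 0) (i : R) :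
    ∃ π : C ≃ C, ∀ j, β (π j) = α i + β j := by
  let e : C ≃ S := Equiv.ofBijective _ (hL.1 i)
  let e0 : C ≃ S := Equiv.ofBijective _ (hL.1 i0)
  refine ⟨e.trans e0.symm, fun j => ?_⟩
  have h1 := h i0 (e0.symm (e j))
  rw [h0, zero_add] at h1
  have h2 : L i0 (e0.symm (e j)) = e j := by
    exact e0.apply_symm_apply (e j)
  rw [h2] at h1
  rw [Equiv.trans_apply, h1]
  exact (h i j).symm

variable [DecidableEq T]

theorem ranges (L : R → C → S) (hL : IsLatin L) (α : R → T) (β : C → T) (γ : S → T)
    (h : ∀ i j, α i + β j = γ (L i j)) (i0 : R) (j0 : C) (h0 : α i0 = 0) (h1 : β j0 = 0) (x : T) :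
    (∃ i, α i = x) ↔ (∃ j, β j = x) := by
  constructor
  · rintro ⟨i, rfl⟩
    obtain ⟨π, hπ⟩ := perm_col L hL α β γ h i0 h0 i
    exact ⟨π j0, by rw [hπ, h1, add_zero]⟩
  · rintro ⟨j, rfl⟩
    obtain ⟨i, hi⟩ := (hL.2 j0).2 (L i0 j)
    refine ⟨i, ?_⟩
    have e1 := h i j0
    have e2 := h i0 j
    simp only at hi
    rw [h1, add_zero, hi, ← e2, h0, zero_add] at e1
    exact e1

/-- The image of `β` is a finite subgroup, the fibres have the same size. -/
theorem core (L : R → C → S) (hL : IsLatin L) (α : R → T) (β : C → T) (γ : S → T)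
    (h : ∀ i j, α i + β j = γ (L i j)) (i0 : R) (j0 : C) (h0 : α i0 = 0) (h1 : β j0 = 0) :
    ∃ f : ℕ, f * (univ.image β).card = Fintype.card C ∧
      ∑ j, β j = f • ∑ y ∈ univ.image β, y ∧
      2 • ∑ y ∈ univ.image β, y = 0 ∧
      ∀ y ∈ univ.image β, (univ.image β).card • y = 0 := by
  classical
  set D := univ.image β with hD
  have hr := ranges L hL α β γ h i0 j0 h0 h1
  have hmem : ∀ x, x ∈ D ↔ ∃ j, β j = x := by intro x; simp [hD]
  -- translations of the multiset
  have hN : ∀ x ∈ D, ∀ y, (univ.filter (fun j => β j = x + y)).card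
      = (univ.filter (fun j => β j = y)).card := by
    intro x hx y
    obtain ⟨i, hi⟩ := (hr x).2 ((hmem x).1 hx)
    obtain ⟨π, hπ⟩ := perm_col L hL α β γ h i0 h0 i
    symm
    refine Finset.card_bij (fun j _ => π j) ?_ ?_ ?_
    · intro j hj
      simp only [mem_filter, mem_univ, true_and] at hj ⊢
      rw [hπ, hi, hj]
    · intro a _ b _ hab; exact π.injective hab
    · intro j hj
      refine ⟨π.symm j, ?_, by simp⟩
      simp only [mem_filter, mem_univ, true_and] at hj ⊢
      have := hπ (π.symm j)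
      rw [Equiv.apply_symm_apply, hj, hi] at this
      exact (add_left_cancel this).symm
  have hadd : ∀ x ∈ D, ∀ y ∈ D, x + y ∈ D := by
    intro x hx y hy
    obtain ⟨i, hi⟩ := (hr x).2 ((hmem x).1 hx)
    obtain ⟨π, hπ⟩ := perm_col L hL α β γ h i0 h0 i
    obtain ⟨j, hj⟩ := (hmem y).1 hy
    exact (hmem _).2 ⟨π j, by rw [hπ, hi, hj]⟩
  have hneg : ∀ x ∈ D, -x ∈ D := by
    intro x hx
    obtain ⟨i, hi⟩ := (hr x).2 ((hmem x).1 hx)
    obtain ⟨π, hπ⟩ := perm_col L hL α β γ h i0 h0 i
    refine (hmem _).2 ⟨π.symm j0, ?_⟩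
    have := hπ (π.symm j0)
    rw [Equiv.apply_symm_apply, h1, hi] at this
    exact (neg_eq_of_add_eq_zero_right this.symm).symm
  refine ⟨(univ.filter (fun j => β j = 0)).card, ?_, ?_, ?_, ?_⟩
  · have e1 := Finset.card_eq_sum_card_image β (univ : Finset C)
    rw [Finset.card_univ] at e1
    rw [e1, ← hD, mul_comm, ← smul_eq_mul, ← Finset.sum_const]
    refine Finset.sum_congr rfl (fun x hx => ?_)
    have := hN x hx 0
    rw [add_zero] at this
    exact this.symm
  · have e1 := Finset.sum_comp (s := (univ : Finset C)) (fun y : T => y) β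
    rw [e1, ← hD, Finset.smul_sum]
    refine Finset.sum_congr rfl (fun x hx => ?_)
    have := hN x hx 0
    rw [add_zero] at this
    rw [this]
  · have e1 : ∑ y ∈ D, y = ∑ y ∈ D, -y := by
      refine Finset.sum_nbij' (fun y => -y) (fun y => -y) hneg hneg ?_ ?_ ?_ <;> simp
    rw [two_nsmul]
    nth_rw 2 [e1]
    rw [← Finset.sum_add_distrib]
    simp
  · intro y hy
    have e1 : ∑ z ∈ D, z = ∑ z ∈ D, (z + y) := by
      refine Finset.sum_nbij' (fun z => z + -y) (fun z => z + y) ?_ ?_ ?_ ?_ ?_
      · intro z hz; exact hadd _ hz _ (hneg _ hy)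
      · intro z hz; exact hadd _ hz _ hy
      · simp
      · simp
      · simp
    rw [Finset.sum_add_distrib, Finset.sum_const] at e1
    simpa using e1

/-- The total sum of a solution of `a i + b j + c (L i j) = 0` after normalisation. -/
theorem total (L : R → C → S) (hL : IsLatin L) (a : R → T) (b : C → T) (c : S → T)
    (h : ∀ i j, a i + b j = c (L i j)) (i0 : R) (j0 : C) :
    ∑ i, a i + ∑ j, b j - ∑ k, c k = ∑ j, (b j - b j0) := by
  have e1 : ∑ k, c k = ∑ i, (a i + b j0) := by
    have := (Equiv.ofBijective _ (hL.2 j0)).sum_comp c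
    rw [← this]
    refine Finset.sum_congr rfl (fun i _ => ?_)
    rw [Equiv.ofBijective_apply, h]
  have e2 : Fintype.card R = Fintype.card C := by
    rw [Fintype.card_congr (Equiv.ofBijective _ (hL.2 j0)),
      ← Fintype.card_congr (Equiv.ofBijective _ (hL.1 i0))]
  rw [e1, Finset.sum_add_distrib, Finset.sum_sub_distrib, Finset.sum_const, Finset.sum_const,
    Finset.card_univ, Finset.card_univ, e2]
  abel

end core

section lattice

variable {R C S : Type} [Fintype R] [Fintype C] [Fintype S] [DecidableEq R] [DecidableEq C]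
  [DecidableEq S]

/-- The line sums. -/
def lineSums (L : R → C → S) : (R → C → ℤ) →+ (R → ℤ) × (C → ℤ) × (S → ℤ) where
  toFun w := (fun i => ∑ j, w i j, fun j => ∑ i, w i j,
    fun k => ∑ i, ∑ j, if L i j = k then w i j else 0)
  map_zero' := by
    refine Prod.ext ?_ (Prod.ext ?_ ?_)
    · funext i; simp
    · funext i; simp
    · funext i; simp
  map_add' := by
    intro w w'
    refine Prod.ext ?_ (Prod.ext ?_ ?_)
    · funext i; simp [Finset.sum_add_distrib]
    · funext i; simp [Finset.sum_add_distrib]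
    · funext k
      simp only [Prod.snd_add, Pi.add_apply]
      rw [← Finset.sum_add_distrib]
      refine Finset.sum_congr rfl (fun i _ => ?_)
      rw [← Finset.sum_add_distrib]
      refine Finset.sum_congr rfl (fun j _ => ?_)
      split_ifs <;> simp

theorem lineSums_single (L : R → C → S) (i : R) (j : C) :
    lineSums L (Pi.single i (Pi.single j 1)) = (Pi.single i 1, Pi.single j 1, Pi.single (L i j) 1) := by
  refine Prod.ext ?_ (Prod.ext ?_ ?_)
  · funext i'
    simp only [lineSums, AddMonoidHom.coe_mk, ZeroHom.coe_mk]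
    by_cases hi : i' = i
    · subst hi; simp [Finset.sum_pi_single']
    · simp [Pi.single_eq_of_ne hi]
  · funext j'
    simp only [lineSums, AddMonoidHom.coe_mk, ZeroHom.coe_mk]
    rw [Finset.sum_eq_single i]
    · simp
    · intro b _ hb; simp [Pi.single_eq_of_ne hb]
    · simp
  · funext k
    simp only [lineSums, AddMonoidHom.coe_mk, ZeroHom.coe_mk]
    rw [Finset.sum_eq_single i]
    · rw [Finset.sum_eq_single j]
      · simp only [Pi.single_eq_same, Pi.single_apply]
        by_cases hk : L i j = k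
        · simp [hk]
        · simp [hk, Ne.symm hk]
      · intro b _ hb; simp [Pi.single_eq_of_ne hb]
      · simp
    · intro b _ hb; simp [Pi.single_eq_of_ne hb]
    · simp

theorem exists_weights (L : R → C → S)
    (hno : ∀ (T : Type) [AddCommGroup T] (a : R → T) (b : C → T) (c : S → T),
      (∀ i j, a i + b j = c (L i j)) → ∑ i, a i + ∑ j, b j - ∑ k, c k = 0) :
    ∃ w : R → C → ℤ, lineSums L w = (1, 1, 1) := by
  have hmk : ∀ x : (R → ℤ) × (C → ℤ) × (S → ℤ),
      QuotientAddGroup.mk' (lineSums L).range x = 0 ↔ ∃ w, lineSums L w = x := by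
    intro x
    rw [QuotientAddGroup.mk'_apply, QuotientAddGroup.eq_zero_iff]
    exact Iff.rfl
  have key := hno (((R → ℤ) × (C → ℤ) × (S → ℤ)) ⧸ (lineSums L).range)
    (fun i => QuotientAddGroup.mk' (lineSums L).range (Pi.single i 1, 0, 0))
    (fun j => QuotientAddGroup.mk' (lineSums L).range (0, Pi.single j 1, 0))
    (fun k => - QuotientAddGroup.mk' (lineSums L).range (0, 0, Pi.single k 1)) (by
      intro i j
      rw [eq_neg_iff_add_eq_zero, ← map_add, ← map_add]
      rw [hmk]
      refine ⟨Pi.single i (Pi.single j 1), ?_⟩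
      rw [lineSums_single]
      simp)
  rw [Finset.sum_neg_distrib, sub_neg_eq_add, ← map_sum, ← map_sum, ← map_sum, ← map_add,
    ← map_add, hmk] at key
  obtain ⟨w, hw⟩ := key
  refine ⟨w, ?_⟩
  rw [hw]
  have h1 : ∀ (X : Type) [Fintype X] [DecidableEq X], ∑ i : X, (Pi.single i (1 : ℤ) : X → ℤ) = 1 := by
    intro X _ _
    funext x
    simp [Finset.sum_apply, Pi.single_apply]
  refine Prod.ext ?_ (Prod.ext ?_ ?_)
  · simp only [Prod.fst_add, Prod.fst_sum, h1]
    simp
  · simp only [Prod.fst_add, Prod.snd_add, Prod.fst_sum, Prod.snd_sum, h1]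
    simp
  · simp only [Prod.snd_add, Prod.snd_sum, h1]
    simp

end lattice

end TH964.HP
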